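import Pool.Agent.N290.RK.Stm2

/-!
Project RK (helper290), part XX: estimates of the functions `X_j`.
-/

set_option autoImplicit false

open Complex MeasureTheory Set Filter Topology

namespace Pool.Agent.N617.RK

open Pool.Agent.N290.RJ Pool.Agent.N290.RK

variable {d : ℕ}

/-- real linear functionals on the plane -/
theorem lin_C (T : ℂ →L[ℝ] ℝ) (y : ℂ) : T y = y.re * T 1 + y.im * T I := by
  have h : y = y.re • (1 : ℂ) + y.im • I := by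
    apply Complex.ext <;> simp
  conv_lhs => rw [h]
  rw [map_add, map_smul, map_smul, smul_eq_mul, smul_eq_mul]

/-- chain rule for real `C¹` functions on the plane -/
theorem db_chi {χ : ℂ → ℝ} (hχ : ContDiff ℝ 2 χ) {F : E d → ℂ} {z : E d} {x : E d → ℂ}
    (hF : DifferentiableAt ℝ F z) (hx : ∀ ξ, fderiv ℝ F z ξ = x ξ)
    (hI : ∀ ξ, x (I • ξ) = I * x ξ) (ξ : E d) :
    db (fun w => ((χ (F w) : ℝ) : ℂ)) z ξ = starRingEnd ℂ (dw χ (F z) * x ξ) := by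
  have h1 : HasFDerivAt χ (fderiv ℝ χ (F z)) (F z) :=
    (hχ.differentiable (by norm_num) (F z)).hasFDerivAt
  have h2 : HasFDerivAt (fun w => χ (F w)) ((fderiv ℝ χ (F z)).comp (fderiv ℝ F z)) z :=
    h1.comp z hF.hasFDerivAt
  have h3 : HasFDerivAt (fun w => ((χ (F w) : ℝ) : ℂ))
      (Complex.ofRealCLM.comp ((fderiv ℝ χ (F z)).comp (fderiv ℝ F z))) z :=
    (Complex.ofRealCLM.hasFDerivAt (x := χ (F z))).comp z h2
  unfold db
  rw [h3.fderiv]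
  simp only [ContinuousLinearMap.comp_apply, Complex.ofRealCLM_apply, hx, hI]
  rw [lin_C _ (x ξ), lin_C _ (I * x ξ)]
  unfold dw
  rw [map_mul, map_div₀, map_sub, map_mul, Complex.conj_ofReal, Complex.conj_ofReal,
    Complex.conj_I, map_ofNat]
  apply Complex.ext
  · simp
    ring
  · simp
    ring

theorem db_exp {g : E d → ℂ} {z : E d} (h : DifferentiableAt ℝ g z) (ξ : E d) :
    db (fun w => exp (g w)) z ξ = exp (g z) * db g z ξ := by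
  unfold db
  rw [h.hasFDerivAt.cexp.fderiv]
  simp only [smul_apply, smul_eq_mul]
  ring

theorem norm_exp_one (σ : ℂ) (hσ : σ.re = 0) (s : ℝ) : ‖exp (σ * (s : ℂ))‖ = 1 := by
  rw [Complex.norm_exp]
  simp [hσ]

theorem norm_dw_le {χ : ℂ → ℝ} {L : ℝ} (h : ∀ w, ‖fderiv ℝ χ w‖ ≤ L) (w : ℂ) :
    ‖dw χ w‖ ≤ L := by
  have h1 : ∀ y : ℂ, ‖y‖ = 1 → |fderiv ℝ χ w y| ≤ L := by
    intro y hy
    have := (fderiv ℝ χ w).le_opNorm y
    rw [hy, mul_one] at this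
    exact this.trans (h w)
  have h2 := h1 1 norm_one
  have h3 := h1 I Complex.norm_I
  unfold dw
  rw [norm_div]
  have h4 : ‖((fderiv ℝ χ w 1 : ℝ) : ℂ) - I * ((fderiv ℝ χ w I : ℝ) : ℂ)‖ ≤ L + L := by
    refine (norm_sub_le _ _).trans ?_
    rw [norm_mul, Complex.norm_I, one_mul, Complex.norm_real, Complex.norm_real]
    exact add_le_add h2 h3
  have h5 : ‖(2 : ℂ)‖ = 2 := by simp
  rw [h5, div_le_iff₀ (by norm_num)]
  linarith

theorem dw_zero {χ : ℂ → ℝ} {ε : ℝ} (h : ∀ w, ‖w‖ ≤ ε → χ w = 1) {w : ℂ} (hw : ‖w‖ < ε) :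
    dw χ w = 0 := by
  have h1 : χ =ᶠ[𝓝 w] fun _ => 1 := by
    have : {y : ℂ | ‖y‖ < ε} ∈ 𝓝 w := (isOpen_lt continuous_norm continuous_const).mem_nhds hw
    filter_upwards [this] with y hy
    exact h y (le_of_lt hy)
  unfold dw
  rw [h1.fderiv_eq, fderiv_fun_const]
  simp

/-- the derivative of `λ χ(F) exp(σ S)` -/
theorem db_prod {a b s : E d → ℝ} {z : E d} (σ : ℂ) (ha : DifferentiableAt ℝ (fun w => (a w : ℂ)) z)
    (hb : DifferentiableAt ℝ (fun w => (b w : ℂ)) z)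
    (hs : DifferentiableAt ℝ (fun w => (s w : ℂ)) z) (ξ : E d) :
    db (fun w => (a w : ℂ) * (b w : ℂ) * exp (σ * (s w : ℂ))) z ξ =
      exp (σ * (s z : ℂ)) * ((a z : ℂ) * db (fun w => (b w : ℂ)) z ξ +
        (b z : ℂ) * (db (fun w => (a w : ℂ)) z ξ + σ * (a z : ℂ) * db (fun w => (s w : ℂ)) z ξ)) := by
  have hσs : DifferentiableAt ℝ (fun w => σ * (s w : ℂ)) z := hs.const_mul σ
  have h1 : db (fun w => σ * (s w : ℂ)) z ξ = σ * db (fun w => (s w : ℂ)) z ξ := by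
    rw [db_mul (γ := fun _ => σ) (differentiableAt_const σ) hs,
      db_hol (γ := fun _ => σ) (differentiableAt_const σ)]
    ring
  rw [db_mul (γ := fun w => (a w : ℂ) * (b w : ℂ)) (ha.mul hb) hσs.cexp, db_exp hσs, h1,
    db_mul ha hb]
  ring

/-- the algebra of the main estimate -/
theorem main_alg {ex b0 l s q : ℂ} {lm ch T1 T2 T3 : ℝ} (hex : ‖ex‖ = 1) (hlm : 0 < lm)
    (hch : 0 ≤ ch ∧ ch ≤ 1) (h1 : ‖(lm : ℂ) * b0‖ ≤ T1) (h2 : ‖l - (lm : ℂ) * q‖ ≤ T2)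
    (h3 : lm * ‖s - I * q‖ ≤ T3) (σ m : ℂ)
    (hσ : (σ = I ∧ m = 0) ∨ (σ = -I ∧ m = ex * ((ch : ℂ) * (2 * (lm : ℂ) * q)))) :
    ‖ex * ((lm : ℂ) * b0 + (ch : ℂ) * (l + σ * (lm : ℂ) * s)) - m‖ ≤ T1 + T2 + T3 := by
  have key : ex * ((lm : ℂ) * b0 + (ch : ℂ) * (l + σ * (lm : ℂ) * s)) - m =
      ex * ((lm : ℂ) * b0 + (ch : ℂ) * ((l - (lm : ℂ) * q) + σ * ((lm : ℂ) * (s - I * q)))) := by
    have hI : I * I = -1 := Complex.I_mul_I
    rcases hσ with ⟨rfl, rfl⟩ | ⟨rfl, rfl⟩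
    · linear_combination (ex * (ch : ℂ) * (lm : ℂ) * q) * hI
    · linear_combination (-(ex * (ch : ℂ) * (lm : ℂ) * q)) * hI
  rw [key, norm_mul, hex, one_mul]
  have hσn : ‖σ‖ = 1 := by
    rcases hσ with ⟨rfl, -⟩ | ⟨rfl, -⟩ <;> simp
  refine (norm_add_le _ _).trans ?_
  have h4 : ‖(ch : ℂ) * ((l - (lm : ℂ) * q) + σ * ((lm : ℂ) * (s - I * q)))‖ ≤ T2 + T3 := by
    rw [norm_mul, Complex.norm_real, Real.norm_of_nonneg hch.1]
    have h5 : ‖(l - (lm : ℂ) * q) + σ * ((lm : ℂ) * (s - I * q))‖ ≤ T2 + T3 := by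
      refine (norm_add_le _ _).trans (add_le_add h2 ?_)
      rw [norm_mul, hσn, one_mul, norm_mul, Complex.norm_real, Real.norm_of_nonneg hlm.le]
      exact h3
    calc ch * ‖(l - (lm : ℂ) * q) + σ * ((lm : ℂ) * (s - I * q))‖
        ≤ 1 * ‖(l - (lm : ℂ) * q) + σ * ((lm : ℂ) * (s - I * q))‖ :=
          mul_le_mul_of_nonneg_right hch.2 (norm_nonneg _)
      _ ≤ T2 + T3 := by rw [one_mul]; exact h5
  linarith

theorem XX_of (d : ℕ) (_h3 : R3a) (hA : XA d) (hF : XF d) (hP : XP d) (hS : XS d) : XX d := by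
  intro K C A L
  obtain ⟨C₁, hC₁, hP⟩ := hP K C A L
  obtain ⟨C₂, hC₂, hS⟩ := hS K C A L
  refine ⟨|3 / 2 * L * K * (A * C * K) ^ 2| + C₁ + C₂ + 1 + (A * C) ^ 2, by positivity, ?_⟩
  intro ε₂ φ χ h ω f D j
  obtain ⟨hPcd, hlcd, hPz⟩ := hP ε₂ φ χ h ω f D j
  obtain ⟨hScd, hSz⟩ := hS ε₂ φ χ h ω f D j
  have hL0 : 0 < L := by linarith [D.hL]
  have hA0 : 0 < A := by linarith [D.hA, D.hL]
  obtain ⟨hacd, haz⟩ := hA K C A h ω D.hK D.hC hA0 D.slow D.pos D.h1 D.h2 D.h3 D.h4 j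
  have hr0 := rad_nonneg j
  have hr1 := (rad_lt_one j).le
  have hFcd : ContDiffOn ℝ 1 (fun w => f (rad j • w)) (B d) := cd_dil (cd_hol D.f1) hr0 hr1
  have hχcd : ContDiffOn ℝ 1 (fun w => ((χ (f (rad j • w)) : ℝ) : ℂ)) (B d) :=
    Complex.ofRealCLM.contDiff.comp_contDiffOn ((D.χ1.of_le (by norm_num)).comp_contDiffOn hFcd)
  have hlcd' : ContDiffOn ℝ 1 (fun w => ((lj φ A h f j w : ℝ) : ℂ)) (B d) :=
    Complex.ofRealCLM.contDiff.comp_contDiffOn hlcd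
  have hScd' : ContDiffOn ℝ 1 (fun w => ((Sj φ A h f j w : ℝ) : ℂ)) (B d) :=
    Complex.ofRealCLM.contDiff.comp_contDiffOn hScd
  have hnhds : ∀ z ∈ B d, B d ∈ 𝓝 z := fun z hz => B_open.mem_nhds hz
  refine ⟨?_, ?_⟩
  · exact (hlcd'.mul hχcd).mul ((contDiffOn_const.mul hScd').cexp)
  intro z hz
  obtain ⟨hl0, -, -, hPξ⟩ := hPz z hz
  obtain ⟨ha0, -, ha2, ha3, -⟩ := haz z hz
  obtain ⟨-, -, hu0, hu1, -, -, -, -, hxξ⟩ := hF K C A L ε₂ φ χ h ω f D j z hz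
  obtain ⟨a, haD⟩ : ∃ a : ℝ, a = ω (1 - N z) := ⟨_, rfl⟩
  obtain ⟨u, huD⟩ : ∃ u : ℝ, u = uu z (rad j) := ⟨_, rfl⟩
  obtain ⟨al0, halD⟩ : ∃ al0 : ℝ, al0 = al A h j z := ⟨_, rfl⟩
  obtain ⟨lm, hlD⟩ : ∃ lm : ℝ, lm = lj φ A h f j z := ⟨_, rfl⟩
  obtain ⟨Fz, hFD⟩ : ∃ Fz : ℂ, Fz = f (rad j • z) := ⟨_, rfl⟩
  have hlme : lm = φ Fz ^ 2 + al0 ^ 2 := by rw [hlD, hFD, halD]; rfl
  have haω := D.slow.2.1 (1 - N z)
  rw [← haD] at haω
  rw [← huD] at hu0 hu1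
  rw [← halD] at ha0 ha3
  rw [← halD, ← haD, ← huD] at ha2
  rw [← hlD] at hl0
  have hK0 : 0 < K := by linarith [D.hK]
  have hC0 : 0 < C := by linarith [D.hC]
  have hX : ‖Xj φ χ A h f j z‖ ≤ lm := by
    unfold Xj
    rw [norm_mul, norm_exp_one I Complex.I_re, mul_one, norm_mul, Complex.norm_real,
      Complex.norm_real, ← hlD, Real.norm_of_nonneg hl0.le, Real.norm_of_nonneg (D.χ2 _).1]
    exact mul_le_of_le_one_right hl0.le (D.χ2 _).2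
  have hlm1 : lm ≤ 1 + (A * C) ^ 2 := by
    rw [hlme]
    have h1 : φ Fz ^ 2 ≤ 1 := pow_le_one₀ (D.φ2 _).1 (D.φ2 _).2
    have h2 : al0 ^ 2 ≤ (A * C) ^ 2 := pow_le_pow_left₀ ha0.le ha3 2
    linarith
  refine ⟨?_, ?_⟩
  · have h1 : 0 ≤ |3 / 2 * L * K * (A * C * K) ^ 2| := abs_nonneg _
    linarith
  intro ξ
  obtain ⟨x, hxD⟩ : ∃ x : ℂ, x = xj f j z ξ := ⟨_, rfl⟩
  obtain ⟨hx1, hx2, -, -⟩ := hxξ ξ
  have hdF : DifferentiableAt ℝ (fun w => f (rad j • w)) z :=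
    (hFcd.differentiableOn (by norm_num)).differentiableAt (hnhds z hz)
  have hdl : DifferentiableAt ℝ (fun w => ((lj φ A h f j w : ℝ) : ℂ)) z :=
    (hlcd'.differentiableOn (by norm_num)).differentiableAt (hnhds z hz)
  have hdS : DifferentiableAt ℝ (fun w => ((Sj φ A h f j w : ℝ) : ℂ)) z :=
    (hScd'.differentiableOn (by norm_num)).differentiableAt (hnhds z hz)
  have hdχ : DifferentiableAt ℝ (fun w => ((χ (f (rad j • w)) : ℝ) : ℂ)) z :=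
    (hχcd.differentiableOn (by norm_num)).differentiableAt (hnhds z hz)
  have hxI : ∀ ξ, xj f j z (I • ξ) = I * xj f j z ξ := by
    intro ξ
    unfold xj
    rw [smul_comm, map_smul, smul_eq_mul]
  have hb := db_chi D.χ1 (F := fun w => f (rad j • w)) (x := xj f j z) hdF
    (fun ξ => (hxξ ξ).2.1) hxI ξ
  have hP2 := (hPξ ξ).2
  have hS2 := hSz z hz ξ
  obtain ⟨q, hqD⟩ : ∃ q : ℂ, q = starRingEnd ℂ (pj φ A h f j z * xj f j z ξ) := ⟨_, rfl⟩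
  rw [← hqD, ← hlD] at hP2 hS2
  rw [← haD] at hP2 hS2 hx1
  rw [← huD] at hS2 hx1
  have hlen := len_nonneg z ξ
  -- the first term
  have hT1 : ‖(lm : ℂ) * starRingEnd ℂ (dw χ Fz * xj f j z ξ)‖ ≤
      |3 / 2 * L * K * (A * C * K) ^ 2| * a ^ 2 * len z ξ := by
    rcases lt_or_ge ‖Fz‖ ε₂ with hlt | hge
    · rw [dw_zero D.χ5 hlt, zero_mul, map_zero, mul_zero, norm_zero]
      have := haω.1
      positivity
    · have hφ0 := D.φ5 Fz hge
      rw [hφ0] at hlme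
      have h1 : lm ≤ (A * C * K) ^ 2 * (a / u) ^ 2 := by
        rw [hlme, ← mul_pow]
        have := pow_le_pow_left₀ ha0.le ha2 2
        linarith
      rw [norm_mul, Complex.norm_real, Real.norm_of_nonneg hl0.le, RCLike.norm_conj, norm_mul]
      have h2 := norm_dw_le D.χ3 Fz
      have h3 : ‖dw χ Fz‖ * ‖xj f j z ξ‖ ≤ L * (3 / 2 * K * a * u ^ 3 * len z ξ) :=
        mul_le_mul h2 hx1 (norm_nonneg _) hL0.le
      have h4 : 0 ≤ L * (3 / 2 * K * a * u ^ 3 * len z ξ) := by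
        have := haω.1
        positivity
      have h5 : lm * (‖dw χ Fz‖ * ‖xj f j z ξ‖) ≤
          ((A * C * K) ^ 2 * (a / u) ^ 2) * (L * (3 / 2 * K * a * u ^ 3 * len z ξ)) :=
        mul_le_mul h1 h3 (by positivity) (by positivity)
      refine h5.trans ?_
      have h6 : ((A * C * K) ^ 2 * (a / u) ^ 2) * (L * (3 / 2 * K * a * u ^ 3 * len z ξ)) =
          (3 / 2 * L * K * (A * C * K) ^ 2 * a ^ 2 * len z ξ) * (a * u) := by
        field_simp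
      rw [h6, abs_of_nonneg (by positivity)]
      have h7 : a * u ≤ 1 := mul_le_one₀ haω.2 hu0.le hu1
      exact mul_le_of_le_one_right (by have := haω.1; positivity) h7
  have hT3 : lm * ‖db (fun w => (Sj φ A h f j w : ℂ)) z ξ - I * q‖ ≤ C₂ * a ^ 2 * len z ξ := by
    refine hS2.trans ?_
    have h1 : u ^ 2 ≤ 1 := pow_le_one₀ hu0.le hu1
    have h2 : C₂ * a ^ 2 * u ^ 2 * len z ξ = (C₂ * a ^ 2 * len z ξ) * u ^ 2 := by ring
    rw [h2]
    exact mul_le_of_le_one_right (by have := haω.1; positivity) h1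
  have hfin : |3 / 2 * L * K * (A * C * K) ^ 2| * a ^ 2 * len z ξ + C₁ * a ^ 2 * len z ξ +
      C₂ * a ^ 2 * len z ξ ≤ (|3 / 2 * L * K * (A * C * K) ^ 2| + C₁ + C₂ + 1 + (A * C) ^ 2) *
        a ^ 2 * len z ξ := by
    have h1 : 0 ≤ (1 + (A * C) ^ 2) * a ^ 2 * len z ξ := by positivity
    nlinarith
  rw [← haD]
  constructor
  · refine le_trans ?_ hfin
    have h1 := db_prod (a := lj φ A h f j) (b := fun w => χ (f (rad j • w)))
      (s := Sj φ A h f j) I hdl hdχ hdS ξ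
    have h2 : db (Xj φ χ A h f j) z ξ = exp (I * (Sj φ A h f j z : ℂ)) *
        ((lm : ℂ) * starRingEnd ℂ (dw χ Fz * xj f j z ξ) + ((χ Fz : ℝ) : ℂ) *
          (db (fun w => (lj φ A h f j w : ℂ)) z ξ + I * (lm : ℂ) *
            db (fun w => (Sj φ A h f j w : ℂ)) z ξ)) - 0 := by
      rw [sub_zero, hFD, hlD, ← hb]
      exact h1
    rw [h2]
    exact main_alg (norm_exp_one I Complex.I_re _) hl0 (D.χ2 Fz) hT1 hP2 hT3 I 0
      (Or.inl ⟨rfl, rfl⟩)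
  · refine le_trans ?_ hfin
    have h1 := db_prod (a := lj φ A h f j) (b := fun w => χ (f (rad j • w)))
      (s := Sj φ A h f j) (-I) hdl hdχ hdS ξ
    have hconj : (fun w => starRingEnd ℂ (Xj φ χ A h f j w)) = fun w =>
        ((lj φ A h f j w : ℝ) : ℂ) * ((χ (f (rad j • w)) : ℝ) : ℂ) *
          exp (-I * ((Sj φ A h f j w : ℝ) : ℂ)) := by
      funext w
      unfold Xj
      rw [map_mul, map_mul, Complex.conj_ofReal, Complex.conj_ofReal, ← Complex.exp_conj, map_mul,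
        Complex.conj_I, Complex.conj_ofReal]
    have hχφ : χ Fz * φ Fz = φ Fz := by
      rcases le_total ‖Fz‖ ε₂ with h0 | h0
      · rw [D.χ5 Fz h0, one_mul]
      · rw [D.φ5 Fz h0, mul_zero]
    have hlq : (lm : ℂ) * q = 2 * (φ Fz : ℂ) * starRingEnd ℂ (dw φ Fz) *
        starRingEnd ℂ (xj f j z ξ) := by
      have h4 : (lm : ℂ) * pj φ A h f j z = 2 * (φ Fz : ℂ) * dw φ Fz := by
        unfold pj pp
        rw [← hFD]
        have h5 : lam φ Fz (al A h j z) = lm := by rw [hlD, hFD]; rfl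
        rw [h5]
        have : (lm : ℂ) ≠ 0 := by exact_mod_cast hl0.ne'
        field_simp
      have h6 : (lm : ℂ) * q = starRingEnd ℂ ((lm : ℂ) * pj φ A h f j z * xj f j z ξ) := by
        rw [hqD, map_mul, map_mul, map_mul, Complex.conj_ofReal]
        ring
      rw [h6, h4]
      simp only [map_mul, Complex.conj_ofReal, map_ofNat]
    have hm : Pj φ A h f j z * starRingEnd ℂ (xj f j z ξ) =
        exp (-I * ((Sj φ A h f j z : ℝ) : ℂ)) * (((χ Fz : ℝ) : ℂ) * (2 * (lm : ℂ) * q)) := by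
      have h7 : (((χ Fz : ℝ) : ℂ)) * ((φ Fz : ℝ) : ℂ) = ((φ Fz : ℝ) : ℂ) := by
        rw [← Complex.ofReal_mul, hχφ]
      unfold Pj
      rw [← hFD, neg_mul]
      linear_combination (-2 * exp (-(I * ((Sj φ A h f j z : ℝ) : ℂ))) * ((χ Fz : ℝ) : ℂ)) * hlq -
        (4 * starRingEnd ℂ (dw φ Fz) * exp (-(I * ((Sj φ A h f j z : ℝ) : ℂ))) *
          starRingEnd ℂ (xj f j z ξ)) * h7
    rw [hconj]
    have h2 : db (fun w => ((lj φ A h f j w : ℝ) : ℂ) * ((χ (f (rad j • w)) : ℝ) : ℂ) *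
          exp (-I * ((Sj φ A h f j w : ℝ) : ℂ))) z ξ = exp (-I * (Sj φ A h f j z : ℂ)) *
        ((lm : ℂ) * starRingEnd ℂ (dw χ Fz * xj f j z ξ) + ((χ Fz : ℝ) : ℂ) *
          (db (fun w => (lj φ A h f j w : ℂ)) z ξ + -I * (lm : ℂ) *
            db (fun w => (Sj φ A h f j w : ℂ)) z ξ)) := by
      rw [hFD, hlD, ← hb]
      exact h1
    rw [h2]
    exact main_alg (norm_exp_one (-I) (by simp) _) hl0 (D.χ2 Fz) hT1 hP2 hT3 (-I) _
      (Or.inr ⟨rfl, hm⟩)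

end Pool.Agent.N617.RK
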